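import Mathlib

set_option autoImplicit false
open Filter Topology Complex Metric Set

namespace Pool.Agent.H.MP_3fbb5c_an

noncomputable def io : C(Icc (0:ℝ) 1, ℂ) := ⟨fun s => ((s : ℝ) : ℂ), by fun_prop⟩

lemma cont_proj (F : C(Icc (0:ℝ) 1, ℂ)) :
    Continuous fun s : ℝ => F (projIcc 0 1 zero_le_one s) :=
  F.continuous.comp continuous_projIcc

noncomputable def II : C(Icc (0:ℝ) 1, ℂ) →L[ℂ] ℂ :=
  LinearMap.mkContinuous
    { toFun := fun F => ∫ s in (0:ℝ)..1, F (projIcc 0 1 zero_le_one s)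
      map_add' := fun F G => by
        simp only [ContinuousMap.add_apply]
        exact intervalIntegral.integral_add ((cont_proj F).intervalIntegrable _ _)
          ((cont_proj G).intervalIntegrable _ _)
      map_smul' := fun c F => by
        simp only [ContinuousMap.smul_apply, RingHom.id_apply]
        exact intervalIntegral.integral_smul _ _ } 1 (fun F => by
      have := intervalIntegral.norm_integral_le_of_norm_le_const (a := (0:ℝ)) (b := 1)
        (f := fun s : ℝ => F (projIcc 0 1 zero_le_one s)) (C := ‖F‖)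
        (fun x _ => F.norm_coe_le_norm _)
      simpa using this)

noncomputable def KK (t z : ℂ) : C(Icc (0:ℝ) 1, ℂ) :=
  (t * z) • (NormedSpace.exp (t • io) * Ring.inverse (1 - (t * z) • io))

noncomputable def J (t z : ℂ) : ℂ := II (KK t z)

lemma J_an (t : ℂ) : AnalyticAt ℂ (fun x : ℂ × ℂ => J x.1 x.2) (t, 0) := by
  have h1 : AnalyticAt ℂ (fun x : ℂ × ℂ => NormedSpace.exp (x.1 • io)) (t, 0) :=
    (NormedSpace.exp_analytic (𝕂 := ℂ) _).fun_comp (analyticAt_fst.smul analyticAt_const)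
  have h2 : AnalyticAt ℂ (fun x : ℂ × ℂ => Ring.inverse (1 - (x.1 * x.2) • io)) (t, 0) := by
    refine AnalyticAt.fun_comp_of_eq (analyticAt_inverse_one_sub ℂ C(Icc (0:ℝ) 1, ℂ))
      (f := fun x : ℂ × ℂ => (x.1 * x.2) • io)
      ((analyticAt_fst.mul analyticAt_snd).smul analyticAt_const) ?_
    simp only [mul_zero]
    exact zero_smul ℂ io
  exact (II.analyticAt _).fun_comp ((analyticAt_fst.mul analyticAt_snd).smul (h1.mul h2))

lemma KK_ap (t z : ℂ) (h : ‖t * z‖ < 1) (s : Icc (0:ℝ) 1) :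
    KK t z s = t * (exp (((s : ℝ) : ℂ) * t) * z / (1 - (((s : ℝ) : ℂ) * t) * z)) := by
  have hio : ‖io‖ ≤ 1 := by
    refine (ContinuousMap.norm_le _ zero_le_one).2 fun x => ?_
    simp only [io, ContinuousMap.coe_mk, norm_real, Real.norm_eq_abs]
    rw [abs_of_nonneg x.2.1]; exact x.2.2
  have hn : ‖(t * z) • io‖ < 1 := by
    rw [norm_smul]
    calc ‖t * z‖ * ‖io‖ ≤ ‖t * z‖ * 1 := by gcongr
      _ < 1 := by simpa using h
  have hu : IsUnit (1 - (t * z) • io) := isUnit_one_sub_of_norm_lt_one hn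
  have e1 := congrArg (fun F : C(Icc (0:ℝ) 1, ℂ) => F s) (Ring.mul_inverse_cancel _ hu)
  simp only [ContinuousMap.mul_apply, ContinuousMap.sub_apply, ContinuousMap.one_apply,
    ContinuousMap.smul_apply, smul_eq_mul] at e1
  have e2 : (NormedSpace.exp (t • io)) s = exp (((s : ℝ) : ℂ) * t) := by
    have := NormedSpace.map_exp (ContinuousMap.evalAlgHom ℂ ℂ s)
      (continuous_eval_const s) (t • io)
    simp only [ContinuousMap.evalAlgHom_apply] at this
    rw [this, Complex.exp_eq_exp_ℂ]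
    simp [io, mul_comm]
  have e3 : io s = ((s : ℝ) : ℂ) := rfl
  rw [e3] at e1
  have hne : 1 - t * z * ((s : ℝ) : ℂ) ≠ 0 := left_ne_zero_of_mul_eq_one e1
  have hne' : 1 - (((s : ℝ) : ℂ) * t) * z ≠ 0 := by
    intro h0; apply hne; rw [← h0]; ring
  simp only [KK, ContinuousMap.mul_apply, ContinuousMap.smul_apply, smul_eq_mul, e2]
  rw [eq_inv_of_mul_eq_one_right e1]
  field_simp

lemma J_zero (z : ℂ) : J 0 z = 0 := by simp [J, KK]

lemma den_ne {t z : ℂ} (hz : ‖z‖ < 1 / 10) (ht : ‖t‖ < 10) : 1 - t * z ≠ 0 := by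
  intro h
  have h1 : t * z = 1 := by linear_combination -h
  have h2 : ‖t * z‖ < 1 := by
    rw [norm_mul]; nlinarith [norm_nonneg t, norm_nonneg z]
  rw [h1] at h2; simp at h2

lemma J_der {t z : ℂ} (hz : ‖z‖ < 1 / 10) (ht : ‖t‖ < 10) :
    HasDerivAt (fun t => J t z) (exp t * z / (1 - t * z)) t := by
  have hd : DifferentiableOn ℂ (fun s : ℂ => exp s * z / (1 - s * z)) (ball 0 10) := by
    intro s hs
    have := den_ne hz (mem_ball_zero_iff.1 hs)
    exact DifferentiableAt.differentiableWithinAt (by fun_prop (disch := assumption))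
  obtain ⟨g, hg⟩ := hd.isExactOn_ball
  have key : ∀ u ∈ ball (0:ℂ) 10, J u z = g u - g 0 := by
    intro u hu
    have hu' := mem_ball_zero_iff.1 hu
    have hb : ∀ s : ℝ, s ∈ uIcc (0:ℝ) 1 → ((s : ℂ) * u) ∈ ball (0:ℂ) 10 := by
      intro s hs
      rw [uIcc_of_le zero_le_one] at hs
      rw [mem_ball_zero_iff, norm_mul, norm_real, Real.norm_eq_abs, abs_of_nonneg hs.1]
      nlinarith [norm_nonneg u, hs.1, hs.2]
    have h1 : J u z = ∫ s in (0:ℝ)..1,
        u * (exp ((s : ℂ) * u) * z / (1 - ((s : ℂ) * u) * z)) := by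
      change (∫ s in (0:ℝ)..1, KK u z (projIcc 0 1 zero_le_one s)) = _
      refine intervalIntegral.integral_congr fun s hs => ?_
      rw [uIcc_of_le zero_le_one] at hs
      rw [KK_ap u z (by rw [norm_mul]; nlinarith [norm_nonneg u, norm_nonneg z]),
        projIcc_of_mem _ hs]
    rw [h1]
    have h2 := intervalIntegral.integral_eq_sub_of_hasDerivAt (a := (0:ℝ)) (b := 1)
      (f := fun s : ℝ => g ((s : ℂ) * u))
      (f' := fun s : ℝ => u * (exp ((s : ℂ) * u) * z / (1 - ((s : ℂ) * u) * z))) (fun s hs => by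
        have a1 : HasDerivAt (fun v : ℂ => g (v * u))
            ((exp ((s : ℂ) * u) * z / (1 - ((s : ℂ) * u) * z)) * u) (s : ℂ) :=
          (hg _ (hb s hs)).comp (s : ℂ) (by simpa using (hasDerivAt_id (s : ℂ)).mul_const u)
        rw [mul_comm u]
        exact a1.comp_ofReal) (by
        refine ContinuousOn.intervalIntegrable fun s hs => ?_
        have := den_ne hz (mem_ball_zero_iff.1 (hb s hs))
        exact ContinuousAt.continuousWithinAt (by fun_prop (disch := assumption)))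
    simpa using h2
  have hm : ball (0:ℂ) 10 ∈ 𝓝 t := isOpen_ball.mem_nhds (mem_ball_zero_iff.2 ht)
  refine ((hg t (mem_ball_zero_iff.2 ht)).sub_const (g 0)).congr_of_eventuallyEq ?_
  filter_upwards [hm] with u hu using key u hu

lemma J_add {s t z : ℂ} (hz : ‖z‖ < 1 / 20) (hs : ‖s‖ < 5) (ht : ‖t‖ < 5) :
    J (s + t) z = J s z + exp s * J t (z / (1 - s * z)) := by
  have hz' : ‖z‖ < 1 / 10 := by linarith
  have hn := den_ne hz' (by linarith : ‖s‖ < 10)
  have hz1 : ‖z / (1 - s * z)‖ < 1 / 10 := by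
    have h1 : 3 / 4 ≤ ‖1 - s * z‖ := by
      have := norm_sub_norm_le (1 : ℂ) (s * z)
      rw [norm_one, norm_mul] at this
      nlinarith [norm_nonneg s, norm_nonneg z]
    rw [norm_div, div_lt_iff₀ (by linarith)]
    linarith
  have hder : ∀ u ∈ ball (0:ℂ) 5,
      HasDerivAt (fun u => J (s + u) z - exp s * J u (z / (1 - s * z))) 0 u := by
    intro u hu
    have hu' := mem_ball_zero_iff.1 hu
    have hsu : ‖s + u‖ < 10 := by linarith [norm_add_le s u]
    have a1 : HasDerivAt (fun u => J (s + u) z) (exp (s + u) * z / (1 - (s + u) * z)) u := by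
      exact ((J_der hz' hsu).comp u ((hasDerivAt_id u).const_add s)).congr_deriv (mul_one _)
    have a2 := (J_der hz1 (by linarith : ‖u‖ < 10)).const_mul (exp s)
    have hn2 := den_ne hz' hsu
    have hn3 : 1 - s * z - u * z ≠ 0 := by intro h0; apply hn2; rw [← h0]; ring
    refine (a1.sub a2).congr_deriv ?_
    have e : 1 - u * (z / (1 - s * z)) = (1 - s * z - u * z) / (1 - s * z) := by
      rw [eq_div_iff hn, sub_mul, mul_assoc, div_mul_cancel₀ _ hn, one_mul]
    have e' : 1 - (s + u) * z = 1 - s * z - u * z := by ring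
    rw [e, e', exp_add]
    generalize 1 - s * z - u * z = A at hn3
    generalize 1 - s * z = B at hn
    field_simp
    ring
  have := (convex_ball (0:ℂ) 5).is_const_of_fderivWithin_eq_zero (𝕜 := ℂ)
    (f := fun u => J (s + u) z - exp s * J u (z / (1 - s * z)))
    (fun u hu => (hder u hu).differentiableAt.differentiableWithinAt)
    (fun u hu => by
      rw [fderivWithin_of_isOpen isOpen_ball hu, (hder u hu).hasFDerivAt.fderiv]; simp)
    (mem_ball_zero_iff.2 ht) (mem_ball_self (by norm_num))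
  simp only [add_zero, J_zero, mul_zero, sub_zero] at this
  linear_combination this

lemma euler {b : ℂ → ℂ} {c : ℂ} (hb : AnalyticAt ℂ b 0)
    (h : ∀ᶠ z in 𝓝[≠] (0:ℂ), z ^ 2 * deriv b z + b z = c * z) : c = 0 := by
  have h1 : ∀ᶠ z in 𝓝 (0:ℂ), z ≠ 0 → (z ^ 2 * deriv b z + b z = c * z ∧ AnalyticAt ℂ b z) := by
    filter_upwards [eventually_nhdsWithin_iff.1 h, hb.eventually_analyticAt] with z h1 h2 hz
      using ⟨h1 hz, h2⟩
  obtain ⟨r, hr, h2⟩ := Metric.eventually_nhds_iff.1 h1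
  set R : ℝ := 2 / r with hR
  have hR0 : 0 < R := by positivity
  have hA : (∮ u in C(0, R), (-c) * (exp (-u) / u)) = 0 := by
    refine circleIntegral.integral_eq_zero_of_hasDerivWithinAt (f := fun u => b u⁻¹ * exp (-u))
      hR0.le fun u hu => ?_
    have hu' : ‖u‖ = R := by simpa using hu
    have hu0 : u ≠ 0 := by intro h0; rw [h0] at hu'; simp at hu'; linarith
    obtain ⟨a1, a2⟩ := h2 (y := u⁻¹) (by
      rw [dist_zero_right, norm_inv, hu', hR, inv_div]; linarith) (inv_ne_zero hu0)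
    have d1 : HasDerivAt (fun u => b u⁻¹) (deriv b u⁻¹ * (-(u ^ 2)⁻¹)) u :=
      a2.differentiableAt.hasDerivAt.comp u (hasDerivAt_inv hu0)
    have d2 : HasDerivAt (fun u => exp (-u)) (exp (-u) * (-1)) u :=
      (hasDerivAt_neg u).cexp
    refine HasDerivAt.hasDerivWithinAt ?_
    refine (d1.mul d2).congr_deriv ?_
    rw [div_eq_mul_inv, ← inv_pow]
    linear_combination (-exp (-u)) * a1
  have hB := circleIntegral_sub_inv_smul_of_differentiable_on_off_countable
    (f := fun u => exp (-u)) (c := 0) (w := 0) (R := R) (s := ∅) countable_empty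
    (mem_ball_self hR0) (by fun_prop) (fun x _ => by fun_prop)
  rw [circleIntegral.integral_const_mul] at hA
  simp only [sub_zero, smul_eq_mul, neg_zero, exp_zero, mul_one] at hB
  have e : (fun u : ℂ => exp (-u) / u) = fun u => u⁻¹ * exp (-u) := by
    ext u; rw [div_eq_inv_mul]
  rw [e, hB] at hA
  simpa [Real.pi_ne_zero] using hA

lemma fin_ord {φ : ℂ → ℂ} (hφ : AnalyticAt ℂ φ 0) (h0 : φ 0 = 0) (h1 : deriv φ 0 = 1)
    {k : ℕ} (hk : 0 < k) (h : φ^[k] =ᶠ[𝓝 0] id) : φ =ᶠ[𝓝 0] id := by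
  have hs : HasStrictDerivAt φ 1 0 := h1 ▸ hφ.hasStrictDerivAt
  have hit : ∀ j : ℕ, HasStrictDerivAt (φ^[j]) 1 0 := fun j => by
    simpa using HasStrictDerivAt.iterate 0 hs h0 j
  have hS : HasStrictDerivAt (fun z => ∑ j ∈ Finset.range k, φ^[j] z) (k : ℂ) 0 := by
    simpa using HasStrictDerivAt.fun_sum (u := Finset.range k) (fun j _ => hit j)
  have hk' : (k : ℂ) ≠ 0 := by exact_mod_cast hk.ne'
  have hl := hS.eventually_left_inverse hk'
  have ht : Tendsto φ (𝓝 0) (𝓝 0) := by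
    have := hφ.continuousAt.tendsto; rwa [h0] at this
  filter_upwards [hl, ht.eventually hl, h] with z a1 a2 a3
  have e : ∑ j ∈ Finset.range k, φ^[j] (φ z) = ∑ j ∈ Finset.range k, φ^[j] z := by
    have e1 := Finset.sum_range_succ' (fun j => φ^[j] z) k
    have e2 := Finset.sum_range_succ (fun j => φ^[j] z) k
    simp only [Function.iterate_succ_apply, Function.iterate_zero, id] at e1
    simp only [id] at a3
    rw [a3] at e2
    linear_combination e2 - e1
  rw [e, a1] at a2
  exact a2.symm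

lemma const_of {φ : ℂ → ℂ} {r : ℝ} (hφ : AnalyticOnNhd ℂ φ (ball 0 r))
    (h : ∀ z ∈ ball (0:ℂ) r, z ^ 2 * deriv φ z = 0) {z : ℂ} (hz : z ∈ ball (0:ℂ) r) :
    φ z = φ 0 := by
  have h0 : (0:ℂ) ∈ ball (0:ℂ) r := mem_ball_self (lt_of_le_of_lt dist_nonneg hz)
  have hd : ∀ u ∈ ball (0:ℂ) r, deriv φ u = 0 := by
    intro u hu
    by_cases hu0 : u = 0
    · subst hu0
      have c1 : Tendsto (deriv φ) (𝓝[≠] 0) (𝓝 (deriv φ 0)) :=
        (hφ 0 h0).deriv.continuousAt.tendsto.mono_left nhdsWithin_le_nhds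
      have c2 : deriv φ =ᶠ[𝓝[≠] 0] fun _ => 0 := by
        filter_upwards [self_mem_nhdsWithin,
          mem_nhdsWithin_of_mem_nhds (isOpen_ball.mem_nhds h0)] with v hv1 hv2
        exact (mul_eq_zero.1 (h v hv2)).resolve_left (pow_ne_zero _ hv1)
      exact tendsto_nhds_unique (c1.congr' c2) tendsto_const_nhds
    · exact (mul_eq_zero.1 (h u hu)).resolve_left (pow_ne_zero _ hu0)
  exact (convex_ball (0:ℂ) r).is_const_of_fderivWithin_eq_zero (𝕜 := ℂ)
    hφ.differentiableOn
    (fun u hu => by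
      rw [fderivWithin_of_isOpen isOpen_ball hu,
        (hφ u hu).differentiableAt.hasDerivAt.hasFDerivAt.fderiv, hd u hu]; simp) hz h0

end Pool.Agent.H.MP_3fbb5c_an
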