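import Pool.Agent.H.MP_3fbb5c_an.A

set_option autoImplicit false
open Filter Topology Complex Metric Set

namespace Pool.Agent.H.MP_3fbb5c_an

lemma dsnd {A : ℂ × ℂ → ℂ} {z w : ℂ} (h : DifferentiableAt ℂ A (z, w)) :
    HasDerivAt (fun u => A (z, u)) (fderiv ℂ A (z, w) (0, 1)) w :=
  h.hasFDerivAt.comp_hasDerivAt w ((hasDerivAt_const w z).prodMk (hasDerivAt_id w))

lemma dfst {A : ℂ × ℂ → ℂ} {z w : ℂ} (h : DifferentiableAt ℂ A (z, w)) :
    HasDerivAt (fun u => A (u, w)) (fderiv ℂ A (z, w) (1, 0)) z :=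
  h.hasFDerivAt.comp_hasDerivAt z ((hasDerivAt_id z).prodMk (hasDerivAt_const z w))

lemma lin2 (L : ℂ × ℂ →L[ℂ] ℂ) (a b : ℂ) : L (a, b) = a * L (1, 0) + b * L (0, 1) := by
  have : (a, b) = a • ((1 : ℂ), (0 : ℂ)) + b • ((0 : ℂ), (1 : ℂ)) := by simp
  rw [this, map_add, map_smul, map_smul]; rfl

lemma mixed {A : ℂ × ℂ → ℂ} {z0 ν : ℂ} (hA : AnalyticAt ℂ A (z0, 0))
    (h0 : ∀ᶠ ζ in 𝓝 z0, A (ζ, 0) = ν) {ε : ℝ} (hε : 0 < ε) :
    ∀ᶠ x in 𝓝 (z0, (0:ℂ)), ‖A x - A (z0, x.2) - (x.1 - z0) * x.2 *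
      deriv (fun ζ => fderiv ℂ A (ζ, 0) (0, 1)) z0‖ ≤ ε * (‖x.1 - z0‖ * ‖x.2‖) := by
  set B : ℂ × ℂ → ℂ := fun x => fderiv ℂ A x (0, 1) with hB
  have hBa : AnalyticAt ℂ B (z0, 0) :=
    ((ContinuousLinearMap.apply ℂ ℂ ((0:ℂ), (1:ℂ))).analyticAt _).fun_comp hA.fderiv
  have hc : deriv (fun ζ => fderiv ℂ A (ζ, 0) (0, 1)) z0 = fderiv ℂ B (z0, 0) (1, 0) :=
    (dfst hBa.differentiableAt).deriv
  rw [hc]
  set c := fderiv ℂ B (z0, 0) (1, 0)
  have hs := hBa.hasStrictFDerivAt.isLittleO.def hε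
  have t1 : Tendsto (fun x : ℂ × ℂ => (x, (z0, x.2))) (𝓝 (z0, 0)) (𝓝 ((z0, 0), (z0, 0))) :=
    Continuous.tendsto' (by fun_prop) _ _ rfl
  have t2 : Tendsto (fun x : ℂ × ℂ => (z0, x.2)) (𝓝 (z0, 0)) (𝓝 (z0, 0)) :=
    Continuous.tendsto' (by fun_prop) _ _ rfl
  have t3 : Tendsto (fun x : ℂ × ℂ => x.1) (𝓝 (z0, 0)) (𝓝 z0) :=
    Continuous.tendsto' (by fun_prop) _ _ rfl
  obtain ⟨δ, hδ, H⟩ := Metric.eventually_nhds_iff.1
    ((t1.eventually hs).and (hA.eventually_analyticAt.and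
      ((t2.eventually hA.eventually_analyticAt).and (t3.eventually h0))))
  filter_upwards [ball_mem_nhds (z0, (0:ℂ)) hδ] with x hx
  obtain ⟨ζ, ω⟩ := x
  rw [mem_ball, Prod.dist_eq, max_lt_iff] at hx
  have hm : ∀ u ∈ ball (0:ℂ) δ, dist (ζ, u) (z0, (0:ℂ)) < δ := fun u hu => by
    rw [Prod.dist_eq, max_lt_iff]; exact ⟨hx.1, hu⟩
  have hd : ∀ u ∈ ball (0:ℂ) δ, HasDerivWithinAt
      (fun u => A (ζ, u) - A (z0, u) - (ζ - z0) * u * c)
      (B (ζ, u) - B (z0, u) - (ζ - z0) * c) (ball 0 δ) u := fun u hu => by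
    obtain ⟨_, a2, a3, _⟩ := H (hm u hu)
    refine HasDerivAt.hasDerivWithinAt ?_
    refine ((dsnd a2.differentiableAt).sub (dsnd a3.differentiableAt)).sub ?_
    simpa using ((hasDerivAt_id u).const_mul (ζ - z0)).mul_const c
  have hb : ∀ u ∈ ball (0:ℂ) δ, ‖B (ζ, u) - B (z0, u) - (ζ - z0) * c‖ ≤ ε * ‖ζ - z0‖ :=
    fun u hu => by
      have a1 := (H (hm u hu)).1
      simp only [Prod.mk_sub_mk, sub_self] at a1
      rw [lin2] at a1
      simpa [Prod.norm_def] using a1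
  have := (convex_ball (0:ℂ) δ).norm_image_sub_le_of_norm_hasDerivWithin_le hd hb
    (mem_ball_self hδ) (show ω ∈ ball (0:ℂ) δ from hx.2)
  have e1 : A (ζ, 0) = ν := (H (hm 0 (mem_ball_self hδ))).2.2.2
  have e2 : A (z0, 0) = ν := h0.self_of_nhds
  simp only [e1, e2, sub_self, mul_zero, zero_mul, sub_zero] at this
  simpa [mul_assoc] using this

lemma slope0 {φ : ℂ → ℂ} {c : ℂ} (h : HasDerivAt φ c 0) (h0 : φ 0 = 0) :
    Tendsto (fun w => φ w / w) (𝓝[≠] 0) (𝓝 c) := by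
  have := hasDerivAt_iff_tendsto_slope_zero.1 h
  simpa [h0, div_eq_inv_mul] using this

lemma second {A : ℂ × ℂ → ℂ} {z0 ν α : ℂ} (hA : AnalyticAt ℂ A (z0, 0))
    (h0 : ∀ᶠ ζ in 𝓝 z0, A (ζ, 0) = ν) {z1 : ℂ → ℂ} (h1 : HasDerivAt z1 α 0) (h2 : z1 0 = z0) :
    Tendsto (fun w => (A (z1 w, w / (1 - w)) - A (z0, w)) / w ^ 2) (𝓝[≠] 0)
      (𝓝 (fderiv ℂ A (z0, 0) (0, 1) + α * deriv (fun ζ => fderiv ℂ A (ζ, 0) (0, 1)) z0)) := by
  set c := deriv (fun ζ => fderiv ℂ A (ζ, 0) (0, 1)) z0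
  set b := fderiv ℂ A (z0, 0) (0, 1)
  have hne : ∀ᶠ w in 𝓝[≠] (0:ℂ), w ≠ 0 ∧ 1 - w ≠ 0 := by
    refine Eventually.and self_mem_nhdsWithin (mem_nhdsWithin_of_mem_nhds ?_)
    exact ContinuousAt.eventually_ne (g := fun w : ℂ => 1 - w) (x := 0) (by fun_prop) (by simp)
  have ti : Tendsto (fun w : ℂ => (1 - w)⁻¹) (𝓝[≠] 0) (𝓝 1) := by
    have : ContinuousAt (fun w : ℂ => (1 - w)⁻¹) 0 := by fun_prop (disch := simp)
    simpa using this.tendsto.mono_left nhdsWithin_le_nhds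
  have tg : Tendsto (fun w : ℂ => w / (1 - w)) (𝓝[≠] 0) (𝓝 0) := by
    have : ContinuousAt (fun w : ℂ => w / (1 - w)) 0 := by fun_prop (disch := simp)
    simpa using this.tendsto.mono_left nhdsWithin_le_nhds
  have tz : Tendsto z1 (𝓝[≠] 0) (𝓝 z0) := by
    simpa [h2] using h1.continuousAt.tendsto.mono_left nhdsWithin_le_nhds
  have ts : Tendsto (fun w => (z1 w - z0) / w) (𝓝[≠] 0) (𝓝 α) :=
    slope0 (h1.sub_const z0) (by simp [h2])
  have tp : Tendsto (fun w => (z1 w - z0) / w * (1 - w)⁻¹) (𝓝[≠] 0) (𝓝 α) := by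
    simpa using ts.mul ti
  have p1 : (fun w => A (z1 w, w / (1 - w)) - A (z0, w / (1 - w)) -
      (z1 w - z0) * (w / (1 - w)) * c) =o[𝓝[≠] 0] fun w => (z1 w - z0) * (w / (1 - w)) := by
    refine Asymptotics.isLittleO_iff.2 fun ε hε => ?_
    filter_upwards [(tz.prodMk_nhds tg).eventually (mixed hA h0 hε)] with w hw
    simpa using hw
  have p1' : (fun w => (z1 w - z0) * (w / (1 - w))) =O[𝓝[≠] 0] fun w => w ^ 2 := by
    refine Asymptotics.isBigO_of_div_tendsto_nhds ?_ α (tp.congr' ?_)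
    · filter_upwards [hne] with w hw h using absurd h (pow_ne_zero _ hw.1)
    · filter_upwards [hne] with w hw
      have := hw.1; have := hw.2
      simp only [Pi.div_apply]; field_simp
  have q1 := (p1.trans_isBigO p1').tendsto_div_nhds_zero
  have hs : HasStrictDerivAt (fun u => A (z0, u)) b 0 := by
    have a1 : AnalyticAt ℂ (fun u => A (z0, u)) 0 :=
      hA.fun_comp_of_eq (analyticAt_const.prod analyticAt_id) rfl
    have a2 := a1.hasStrictDerivAt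
    rwa [(dsnd hA.differentiableAt).deriv] at a2
  have tw : Tendsto (fun w : ℂ => w) (𝓝[≠] 0) (𝓝 0) := tendsto_id.mono_left nhdsWithin_le_nhds
  have p2 := hs.hasStrictFDerivAt.isLittleO.comp_tendsto (tg.prodMk_nhds tw)
  have p2' : (fun w : ℂ => w / (1 - w) - w) =O[𝓝[≠] 0] fun w => w ^ 2 := by
    refine Asymptotics.isBigO_of_div_tendsto_nhds ?_ 1 (ti.congr' ?_)
    · filter_upwards [hne] with w hw h using absurd h (pow_ne_zero _ hw.1)
    · filter_upwards [hne] with w hw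
      have := hw.1; have := hw.2
      simp only [Pi.div_apply]; field_simp; ring
  have q2 := (p2.trans_isBigO p2').tendsto_div_nhds_zero
  have := ((q1.add q2).add (ti.mul_const b)).add (tp.mul_const c)
  simp only [zero_add, one_mul] at this
  refine this.congr' ?_
  filter_upwards [hne] with w hw
  have := hw.1; have := hw.2
  simp only [Function.comp, ContinuousLinearMap.toSpanSingleton_apply, smul_eq_mul]
  field_simp; ring

lemma exp2 {θ : ℂ → ℂ} {c : ℂ} (h : Tendsto (fun w => θ w / w ^ 2) (𝓝[≠] 0) (𝓝 c)) :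
    Tendsto (fun w => (exp (θ w) - 1) / w ^ 2) (𝓝[≠] 0) (𝓝 c) := by
  have tw : Tendsto (fun w : ℂ => w ^ 2) (𝓝[≠] 0) (𝓝 0) := by
    have : ContinuousAt (fun w : ℂ => w ^ 2) 0 := by fun_prop
    simpa using this.tendsto.mono_left nhdsWithin_le_nhds
  have t0 : Tendsto θ (𝓝[≠] 0) (𝓝 0) := by
    have := h.mul tw
    rw [mul_zero] at this
    refine this.congr' ?_
    filter_upwards [self_mem_nhdsWithin] with w hw
    exact div_mul_cancel₀ _ (pow_ne_zero _ hw)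
  have t1 : ContinuousAt (dslope exp 0) 0 := continuousAt_dslope_same.2 differentiableAt_exp
  have t2 := (t1.tendsto.comp t0).mul h
  simp only [dslope_same, Complex.deriv_exp, exp_zero, one_mul] at t2
  refine t2.congr fun w => ?_
  have := sub_smul_dslope exp 0 (θ w)
  simp only [sub_zero, smul_eq_mul, exp_zero] at this
  simp only [Function.comp]
  rw [← this]; ring

end Pool.Agent.H.MP_3fbb5c_an
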