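import Pool.Agent.H.MP_3fbb5c_an.B

set_option autoImplicit false
open Filter Topology Complex Metric Set

namespace Pool.Agent.H.MP_3fbb5c_an

structure Good (a H : ℂ × ℂ → ℂ) (z : ℂ) : Prop where
  an : AnalyticAt ℂ a (z, 0)
  hn : AnalyticAt ℂ H (z, 0)
  a0 : a (z, 0) = z
  h0 : H (z, 0) = 0
  da : ∀ α β : ℂ, fderiv ℂ a (z, 0) (α, β) = α + β * z ^ 2
  dh : ∀ α β : ℂ, fderiv ℂ H (z, 0) (α, β) = β * z

noncomputable def FF (a H : ℂ × ℂ → ℂ) (p : ℂ × ℂ × ℂ) : ℂ × ℂ × ℂ :=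
  (a (p.1, p.2.1), p.2.1 / (1 - p.2.1), p.2.2 * exp (p.2.1 * H (p.1, p.2.1)))

variable {a H : ℂ × ℂ → ℂ} {σ : ℂ × ℂ × ℂ → ℂ × ℂ × ℂ}

lemma FF0 {z : ℂ} (h : Good a H z) (y : ℂ) : FF a H (z, 0, y) = (z, 0, y) := by
  simp [FF, h.a0]

lemma c1 {γ : ℂ → ℂ × ℂ × ℂ} {v : ℂ × ℂ × ℂ} {t : ℂ} (h : HasDerivAt γ v t) :
    HasDerivAt (fun s => (γ s).1) v.1 t :=
  (hasFDerivAt_fst (𝕜 := ℂ) (p := γ t)).comp_hasDerivAt t h

lemma c23 {γ : ℂ → ℂ × ℂ × ℂ} {v : ℂ × ℂ × ℂ} {t : ℂ} (h : HasDerivAt γ v t) :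
    HasDerivAt (fun s => (γ s).2) v.2 t :=
  (hasFDerivAt_snd (𝕜 := ℂ) (p := γ t)).comp_hasDerivAt t h

lemma c2 {γ : ℂ → ℂ × ℂ × ℂ} {v : ℂ × ℂ × ℂ} {t : ℂ} (h : HasDerivAt γ v t) :
    HasDerivAt (fun s => (γ s).2.1) v.2.1 t :=
  ((hasFDerivAt_fst (𝕜 := ℂ) (p := (γ t).2)).comp_hasDerivAt t (c23 h) :)

lemma c3 {γ : ℂ → ℂ × ℂ × ℂ} {v : ℂ × ℂ × ℂ} {t : ℂ} (h : HasDerivAt γ v t) :
    HasDerivAt (fun s => (γ s).2.2) v.2.2 t :=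
  ((hasFDerivAt_snd (𝕜 := ℂ) (p := (γ t).2)).comp_hasDerivAt t (c23 h) :)

lemma c12 {γ : ℂ → ℂ × ℂ × ℂ} {v : ℂ × ℂ × ℂ} {t : ℂ} (h : HasDerivAt γ v t) {A : ℂ × ℂ → ℂ}
    (hA : DifferentiableAt ℂ A ((γ t).1, (γ t).2.1)) :
    HasDerivAt (fun s => A ((γ s).1, (γ s).2.1))
      (fderiv ℂ A ((γ t).1, (γ t).2.1) (v.1, v.2.1)) t :=
  hA.hasFDerivAt.comp_hasDerivAt t ((c1 h).prodMk (c2 h))

lemma dF {γ : ℂ → ℂ × ℂ × ℂ} {v : ℂ × ℂ × ℂ} {t z : ℂ} (h : HasDerivAt γ v t)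
    (hz : Good a H z) (e1 : (γ t).1 = z) (e2 : (γ t).2.1 = 0) :
    HasDerivAt (fun s => FF a H (γ s)) (v.1 + v.2.1 * z ^ 2, v.2.1, v.2.2) t := by
  have b1 := c12 h (A := a) (by rw [e1, e2]; exact hz.an.differentiableAt)
  have b2 := c12 h (A := H) (by rw [e1, e2]; exact hz.hn.differentiableAt)
  rw [e1, e2] at b1 b2
  rw [hz.da] at b1
  refine b1.prodMk (HasDerivAt.prodMk ?_ ?_)
  · refine ((c2 h).div ((c2 h).const_sub 1) (by simp [e2])).congr_deriv ?_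
    simp [e2]
  · refine ((c3 h).mul ((c2 h).mul b2).cexp).congr_deriv ?_
    simp [e1, e2, hz.h0]

lemma lin3 (L : ℂ × ℂ × ℂ →L[ℂ] ℂ × ℂ × ℂ) (x y z : ℂ) :
    L (x, y, z) = x • L (1, 0, 0) + y • L (0, 1, 0) + z • L (0, 0, 1) := by
  have : (x, y, z) = x • ((1 : ℂ), (0 : ℂ), (0 : ℂ)) + y • ((0 : ℂ), (1 : ℂ), (0 : ℂ)) +
    z • ((0 : ℂ), (0 : ℂ), (1 : ℂ)) := by simp
  rw [this, map_add, map_add, map_smul, map_smul, map_smul]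

structure Nice (a H : ℂ × ℂ → ℂ) (σ : ℂ × ℂ × ℂ → ℂ × ℂ × ℂ) (p : ℂ × ℂ × ℂ) : Prop where
  an : AnalyticAt ℂ σ p
  rel : ∀ᶠ q in 𝓝 p, FF a H (σ (FF a H q)) = σ q
  g1 : Good a H p.1
  g2 : Good a H (σ p).1
  sm : (σ p).2.1 ≠ 1

lemma s1 {z y : ℂ} (h : Nice a H σ (z, 0, y)) : (σ (z, 0, y)).2.1 = 0 := by
  have e := h.rel.self_of_nhds
  rw [FF0 h.g1] at e
  have e2 : (σ (z, 0, y)).2.1 / (1 - (σ (z, 0, y)).2.1) = (σ (z, 0, y)).2.1 :=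
    congrArg (fun p => p.2.1) e
  rw [div_eq_iff (sub_ne_zero.2 h.sm.symm)] at e2
  exact pow_eq_zero_iff (two_ne_zero) |>.1 (by linear_combination e2)

lemma k1 (z w y : ℂ) : HasDerivAt (fun u : ℂ => (u, w, y)) ((1:ℂ), (0:ℂ), (0:ℂ)) z :=
  (hasDerivAt_id z).prodMk (hasDerivAt_const z (w, y))

lemma k2 (z w y : ℂ) : HasDerivAt (fun u : ℂ => (z, u, y)) ((0:ℂ), (1:ℂ), (0:ℂ)) w :=
  (hasDerivAt_const w z).prodMk ((hasDerivAt_id w).prodMk (hasDerivAt_const w y))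

lemma k3 (z w y : ℂ) : HasDerivAt (fun u : ℂ => (z, w, u)) ((0:ℂ), (0:ℂ), (1:ℂ)) y :=
  (hasDerivAt_const y z).prodMk ((hasDerivAt_const y w).prodMk (hasDerivAt_id y))

lemma ds {γ : ℂ → ℂ × ℂ × ℂ} {v p : ℂ × ℂ × ℂ} {t : ℂ} (h : HasDerivAt γ v t)
    (hσ : AnalyticAt ℂ σ p) (e : γ t = p) :
    HasDerivAt (fun s => σ (γ s)) (fderiv ℂ σ p v) t := by
  subst e
  exact hσ.differentiableAt.hasFDerivAt.comp_hasDerivAt t h

lemma cc {z y : ℂ} (h : Good a H z) :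
    HasDerivAt (fun w : ℂ => FF a H (z, w, y)) (z ^ 2, 1, 0) 0 := by
  simpa using dF (k2 z 0 y) h rfl rfl

lemma s2 {z y : ℂ} (h : Nice a H σ (z, 0, y)) :
    z ^ 2 * (fderiv ℂ σ (z, 0, y) (1, 0, 0)).1 +
      (fderiv ℂ σ (z, 0, y) (0, 1, 0)).2.1 * (σ (z, 0, y)).1 ^ 2 = 0 ∧
    z ^ 2 * (fderiv ℂ σ (z, 0, y) (1, 0, 0)).2.2 = 0 := by
  have b1 := ds (cc h.g1) h.an (FF0 h.g1 y)
  have b2 := dF b1 h.g2 (by rw [FF0 h.g1]) (by rw [FF0 h.g1]; exact s1 h)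
  have b3 := ds (k2 z 0 y) h.an rfl
  have b4 := b2.unique (b3.congr_of_eventuallyEq ((k2 z 0 y).continuousAt.tendsto.eventually h.rel))
  have e1 := congrArg (fun p => p.1) b4
  have e2 := congrArg (fun p => p.2.1) b4
  have e3 := congrArg (fun p => p.2.2) b4
  simp only at e1 e2 e3
  rw [e2] at e1
  rw [lin3] at e1 e3
  simp only [one_smul, zero_smul, add_zero, Prod.fst_add, Prod.snd_add, Prod.smul_fst,
    Prod.smul_snd, smul_eq_mul] at e1 e3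
  exact ⟨by linear_combination e1, by linear_combination e3⟩

lemma s3 (h : Nice a H σ 0) (h0 : σ 0 = 0) (ha : ∀ w, a (0, w) = 0)
    (hm : (fderiv ℂ σ 0 (0, 1, 0)).2.1 ≠ 0) : (fderiv ℂ σ 0 (0, 1, 0)).2.1 = -1 := by
  set m := (fderiv ℂ σ 0 (0, 1, 0)).2.1
  set W : ℂ → ℂ := fun w => (σ (0, w, 0)).2.1 with hW
  have an : AnalyticAt ℂ W 0 := by
    have : AnalyticAt ℂ (fun w : ℂ => σ (0, w, 0)) 0 :=
      h.an.fun_comp_of_eq (analyticAt_const.prod (analyticAt_id.prod analyticAt_const)) rfl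
    exact analyticAt_fst.fun_comp (analyticAt_snd.fun_comp this)
  have W0 : W 0 = 0 := by
    change (σ 0).2.1 = 0
    rw [h0]; rfl
  have dW : HasDerivAt W m 0 := c2 (ds (k2 0 0 0) h.an rfl)
  obtain ⟨pp, hp⟩ := an
  have un : AnalyticAt ℂ (dslope W 0) 0 := ⟨_, hp.has_fpower_series_dslope_fslope⟩
  set u := dslope W 0
  have u0 : u 0 = m := (dslope_same W 0).trans dW.deriv
  have hu : ∀ w, W w = w * u w := fun w => by
    have := sub_smul_dslope W 0 w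
    simp only [sub_zero, smul_eq_mul, W0] at this
    exact this.symm
  have dg : HasDerivAt (fun w : ℂ => w / (1 - w)) 1 0 :=
    ((hasDerivAt_id (0:ℂ)).div ((hasDerivAt_id (0:ℂ)).const_sub 1) (by simp)).congr_deriv (by simp)
  have du := un.differentiableAt.hasDerivAt
  have d1 : HasDerivAt (fun w : ℂ => u (w / (1 - w))) (deriv u 0 * 1) 0 :=
    HasDerivAt.comp_of_eq (0:ℂ) du dg (by simp)
  have d2 : HasDerivAt (fun w : ℂ => W (w / (1 - w))) (m * 1) 0 :=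
    HasDerivAt.comp_of_eq (0:ℂ) dW dg (by simp)
  have d3 := (du.mul (d2.const_sub 1)).mul ((hasDerivAt_id (0:ℂ)).const_sub 1)
  have ev : (fun w : ℂ => u (w / (1 - w))) =ᶠ[𝓝[≠] 0]
      ((u * fun w : ℂ => 1 - W (w / (1 - w))) * fun w : ℂ => 1 - id w) := by
    have n1 : ∀ᶠ w in 𝓝 (0:ℂ), 1 - w ≠ 0 :=
      ContinuousAt.eventually_ne (g := fun w : ℂ => 1 - w) (x := 0) (by fun_prop) (by simp)
    have n2 : ∀ᶠ w in 𝓝 (0:ℂ), 1 - W (w / (1 - w)) ≠ 0 :=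
      ContinuousAt.eventually_ne (d2.const_sub 1).continuousAt (by simp [W0])
    have n3 := (k2 0 0 0).continuousAt.tendsto.eventually h.rel
    filter_upwards [self_mem_nhdsWithin, mem_nhdsWithin_of_mem_nhds n1,
      mem_nhdsWithin_of_mem_nhds n2, mem_nhdsWithin_of_mem_nhds n3] with w w0 w1 w2 w3
    have e : FF a H (0, w, 0) = (0, w / (1 - w), 0) := by simp [FF, ha]
    rw [e] at w3
    have e2 : W (w / (1 - w)) / (1 - W (w / (1 - w))) = W w := congrArg (fun p => p.2.1) w3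
    rw [div_eq_iff w2, hu w] at e2
    have e3 := hu (w / (1 - w))
    simp only [Pi.mul_apply, id]
    have w0' : w ≠ 0 := w0
    rw [e2, div_mul_eq_mul_div, eq_div_iff w1] at e3
    apply mul_left_cancel₀ w0'
    linear_combination -e3
  have ev2 := (ContinuousAt.eventuallyEq_nhds_iff_eventuallyEq_nhdsNE d1.continuousAt
    d3.continuousAt).1 ev
  have := d1.unique (d3.congr_of_eventuallyEq ev2)
  simp only [Pi.mul_apply, id, sub_zero, div_one, W0, u0] at this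
  apply mul_left_cancel₀ hm
  linear_combination this

end Pool.Agent.H.MP_3fbb5c_an
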