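import Pool.Agent.H.MP_3fbb5c_an.C

set_option autoImplicit false
open Filter Topology Complex Metric Set

namespace Pool.Agent.H.MP_3fbb5c_an

variable {a H : ℂ × ℂ → ℂ} {σ : ℂ × ℂ × ℂ → ℂ × ℂ × ℂ}

lemma yder {z w : ℂ} {p u : ℂ × ℂ × ℂ} (h1 : AnalyticAt ℂ σ (z, w, 0))
    (h2 : AnalyticAt ℂ σ (FF a H (z, w, 0)))
    (rel : ∀ᶠ q in 𝓝 (z, w, (0:ℂ)), FF a H (σ (FF a H q)) = σ q)
    (hp : σ (FF a H (z, w, 0)) = p) (hu : fderiv ℂ σ (FF a H (z, w, 0)) (0, 0, 1) = u)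
    (h3 : DifferentiableAt ℂ H (p.1, p.2.1)) :
    (fderiv ℂ σ (z, w, 0) (0, 0, 1)).2.2 = exp (w * H (z, w) + p.2.1 * H (p.1, p.2.1)) *
      (u.2.2 + p.2.2 * (u.2.1 * H (p.1, p.2.1) +
        p.2.1 * fderiv ℂ H (p.1, p.2.1) (u.1, u.2.1))) := by
  have b0 : HasDerivAt (fun y : ℂ => FF a H (z, w, y))
      (exp (w * H (z, w)) • ((0:ℂ), (0:ℂ), (1:ℂ))) 0 := by
    have := (hasDerivAt_const (0:ℂ) (a (z, w))).prodMk ((hasDerivAt_const (0:ℂ) (w / (1 - w))).prodMk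
      ((hasDerivAt_id (0:ℂ)).mul_const (exp (w * H (z, w)))))
    simpa [FF] using this
  have b1 := ds b0 h2 rfl
  rw [map_smul, hu] at b1
  have b2 := c12 b1 (A := H) (by rw [hp]; exact h3)
  have b3 := (c3 b1).mul ((c2 b1).mul b2).cexp
  have b4 := c3 (ds (k3 z w 0) h1 rfl)
  have ev : (fun y => (σ (z, w, y)).2.2) =ᶠ[𝓝 0] fun y => (FF a H (σ (FF a H (z, w, y)))).2.2 := by
    filter_upwards [(k3 z w 0).continuousAt.tendsto.eventually rel] with y hy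
    rw [hy]
  have := b4.unique (b3.congr_of_eventuallyEq ev)
  rw [this]
  simp only [Pi.mul_apply, hp, Prod.smul_fst, Prod.smul_snd, smul_eq_mul, exp_add]
  rw [lin2, lin2 _ u.1]
  ring

noncomputable def AA (σ : ℂ × ℂ × ℂ → ℂ × ℂ × ℂ) (x : ℂ × ℂ) : ℂ :=
  (fderiv ℂ σ (x.1, x.2, 0) (0, 0, 1)).2.2

lemma fd_an {p : ℂ × ℂ × ℂ} (h : AnalyticAt ℂ σ p) (v : ℂ × ℂ × ℂ) :
    AnalyticAt ℂ (fun q => fderiv ℂ σ q v) p :=
  ((ContinuousLinearMap.apply ℂ (ℂ × ℂ × ℂ) v).analyticAt _).fun_comp h.fderiv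

lemma AA_an {z : ℂ} (h : AnalyticAt ℂ σ (z, 0, 0)) : AnalyticAt ℂ (AA σ) (z, 0) := by
  have : AnalyticAt ℂ (fun x : ℂ × ℂ => fderiv ℂ σ (x.1, x.2, 0) (0, 0, 1)) (z, 0) :=
    (fd_an h _).fun_comp_of_eq (analyticAt_fst.prod (analyticAt_snd.prod analyticAt_const)) rfl
  exact analyticAt_snd.fun_comp (analyticAt_snd.fun_comp this)

lemma s5 {z ν : ℂ} (h : Nice a H σ (z, 0, 0)) (h0 : σ (z, 0, 0) = (z, 0, 0))
    (hm : (fderiv ℂ σ (z, 0, 0) (0, 1, 0)).2.1 = -1)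
    (h1 : (fderiv ℂ σ (z, 0, 0) (1, 0, 0)).2.1 = 0)
    (h3 : (fderiv ℂ σ (z, 0, 0) (0, 0, 1)).2.1 = 0)
    (hν : ∀ᶠ ζ in 𝓝 z, AA σ (ζ, 0) = ν) :
    z ^ 2 * deriv (fun ζ => fderiv ℂ (AA σ) (ζ, 0) (0, 1)) z +
      fderiv ℂ (AA σ) (z, 0) (0, 1) = (-2 * ν) * z := by
  have g : Good a H z := h.g1
  have hc := cc (y := 0) g
  have hc0 := FF0 g 0
  have hs := ds hc h.an hc0
  set v := fderiv ℂ σ (z, 0, 0) (z ^ 2, 1, 0) with hv
  have v2 : v.2.1 = -1 := by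
    rw [hv, lin3]
    simp only [one_smul, zero_smul, add_zero, Prod.fst_add, Prod.snd_add, Prod.smul_fst,
      Prod.smul_snd, smul_eq_mul, h1, hm]
    ring
  set s : ℂ → ℂ × ℂ × ℂ := fun w => σ (FF a H (z, w, 0)) with hsd
  have s0 : s 0 = (z, 0, 0) := by simp only [hsd, hc0, h0]
  set u : ℂ → ℂ × ℂ × ℂ := fun w => fderiv ℂ σ (FF a H (z, w, 0)) (0, 0, 1) with hud
  have tc : Tendsto (fun w : ℂ => FF a H (z, w, 0)) (𝓝 0) (𝓝 (z, 0, 0)) := by
    have := hc.continuousAt.tendsto; rwa [hc0] at this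
  have tu : Tendsto u (𝓝[≠] 0) (𝓝 (fderiv ℂ σ (z, 0, 0) (0, 0, 1))) :=
    ((fd_an h.an _).continuousAt.tendsto.comp tc).mono_left nhdsWithin_le_nhds
  have tq : Tendsto (fun w => ((s w).1, (s w).2.1)) (𝓝 0) (𝓝 (z, 0)) := by
    have := ((c1 hs).prodMk (c2 hs)).continuousAt.tendsto
    simpa only [s0] using this
  have tW : Tendsto (fun w => (s w).2.1 / w) (𝓝[≠] 0) (𝓝 (-1)) :=
    v2 ▸ slope0 (c2 hs) (by rw [s0])
  have tY : Tendsto (fun w => (s w).2.2 / w) (𝓝[≠] 0) (𝓝 v.2.2) := slope0 (c3 hs) (by rw [s0])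
  have tH : Tendsto (fun w => H ((s w).1, (s w).2.1) / w) (𝓝[≠] 0) (𝓝 (-z)) := by
    have b := c12 hs (A := H) (by rw [s0]; exact g.hn.differentiableAt)
    rw [s0] at b
    simp only [g.dh, v2, neg_mul, one_mul] at b
    exact slope0 b (by rw [s0]; exact g.h0)
  have tH0 : Tendsto (fun w => H (z, w) / w) (𝓝[≠] 0) (𝓝 z) := by
    have b := dsnd g.hn.differentiableAt
    rw [g.dh, one_mul] at b
    exact slope0 b g.h0
  have tu1 := (continuous_fst.tendsto _).comp tu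
  have tu2 := (continuous_snd.fst.tendsto _).comp tu
  have tu3 := (continuous_snd.snd.tendsto _).comp tu
  have tD : Tendsto (fun w => fderiv ℂ H ((s w).1, (s w).2.1) ((u w).1, (u w).2.1)) (𝓝[≠] 0)
      (𝓝 0) := by
    have b1 : Tendsto (fun w => fderiv ℂ H ((s w).1, (s w).2.1)) (𝓝[≠] 0)
        (𝓝 (fderiv ℂ H (z, 0))) :=
      (g.hn.fderiv.continuousAt.tendsto.comp tq).mono_left nhdsWithin_le_nhds
    have b2 := (isBoundedBilinearMap_apply.continuous.tendsto _).comp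
      (b1.prodMk_nhds (tu1.prodMk_nhds tu2))
    simp only [g.dh, h3, zero_mul] at b2
    exact b2
  rw [h3] at tu2
  have e3 : (fderiv ℂ σ (z, 0, 0) (0, 0, 1)).2.2 = ν := hν.self_of_nhds
  rw [e3] at tu3
  set R : ℂ → ℂ := fun w => (s w).2.2 * ((u w).2.1 * H ((s w).1, (s w).2.1) +
    (s w).2.1 * fderiv ℂ H ((s w).1, (s w).2.1) ((u w).1, (u w).2.1)) with hR
  have tR : Tendsto (fun w => R w / w ^ 2) (𝓝[≠] 0) (𝓝 0) := by
    have := tY.mul ((tu2.mul tH).add (tW.mul tD))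
    simp only [zero_mul, mul_zero, add_zero] at this
    refine this.congr fun w => ?_
    simp only [hR, Function.comp]
    ring
  have tR0 : Tendsto R (𝓝[≠] 0) (𝓝 0) := by
    have tw : Tendsto (fun w : ℂ => w ^ 2) (𝓝[≠] 0) (𝓝 0) := by
      have : ContinuousAt (fun w : ℂ => w ^ 2) 0 := by fun_prop
      simpa using this.tendsto.mono_left nhdsWithin_le_nhds
    have := tR.mul tw
    rw [mul_zero] at this
    refine this.congr' ?_
    filter_upwards [self_mem_nhdsWithin] with w hw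
    exact div_mul_cancel₀ _ (pow_ne_zero _ hw)
  have tθ : Tendsto (fun w => (w * H (z, w) + (s w).2.1 * H ((s w).1, (s w).2.1)) / w ^ 2)
      (𝓝[≠] 0) (𝓝 (z + (-1) * (-z))) := by
    refine (tH0.add (tW.mul tH)).congr' ?_
    filter_upwards [self_mem_nhdsWithin] with w hw
    have : w ≠ 0 := hw
    field_simp
  have tE := exp2 tθ
  have tA := second (AA_an h.an) hν (c1 hc) (congrArg Prod.fst hc0)
  have tot := ((tE.mul (tu3.add tR0)).add tR).add tA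
  have zero : (fun w => (exp (w * H (z, w) + (s w).2.1 * H ((s w).1, (s w).2.1)) - 1) / w ^ 2 *
      ((u w).2.2 + R w) + R w / w ^ 2 +
      (AA σ ((FF a H (z, w, 0)).1, w / (1 - w)) - AA σ (z, w)) / w ^ 2) =ᶠ[𝓝[≠] 0]
      fun _ => 0 := by
    have tk := (k2 z 0 0).continuousAt.tendsto
    refine mem_nhdsWithin_of_mem_nhds ?_
    filter_upwards [tk.eventually h.an.eventually_analyticAt,
      tc.eventually h.an.eventually_analyticAt, tk.eventually h.rel.eventually_nhds,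
      tq.eventually g.hn.eventually_analyticAt] with w a1 a2 a3 a4
    have y1 := yder a1 a2 a3 rfl rfl a4.differentiableAt
    have y2 : AA σ ((FF a H (z, w, 0)).1, w / (1 - w)) = (u w).2.2 := by
      simp only [AA, hud, FF, zero_mul]
    have y3 : AA σ (z, w) = exp (w * H (z, w) + (s w).2.1 * H ((s w).1, (s w).2.1)) *
      ((u w).2.2 + R w) := y1
    rw [y2, y3]
    ring
  have := tendsto_nhds_unique (tot.congr' zero) tendsto_const_nhds
  linear_combination this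

theorem no_rev (hG : ∀ᶠ z in 𝓝 0, Good a H z) (ha : ∀ w, a (0, w) = 0)
    (hσ : AnalyticAt ℂ σ 0) (h0 : σ 0 = 0) (hs : Function.Surjective (fderiv ℂ σ 0))
    (rel : ∀ᶠ q in 𝓝 0, FF a H (σ (FF a H q)) = σ q) {k : ℕ} (hk : 0 < k)
    (hit : σ^[k] =ᶠ[𝓝 0] id) : False := by
  have tσ : Tendsto σ (𝓝 0) (𝓝 0) := by
    have := hσ.continuousAt.tendsto; rwa [h0] at this
  have hN : ∀ᶠ p in 𝓝 0, Nice a H σ p := by
    have t1 : Tendsto (fun p : ℂ × ℂ × ℂ => p.1) (𝓝 0) (𝓝 0) := continuous_fst.tendsto _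
    have t2 : ∀ᶠ p : ℂ × ℂ × ℂ in 𝓝 0, p.2.1 ≠ 1 :=
      ContinuousAt.eventually_ne (g := fun p : ℂ × ℂ × ℂ => p.2.1) (x := 0) (by fun_prop) (by simp)
    filter_upwards [hσ.eventually_analyticAt, rel.eventually_nhds, t1.eventually hG,
      (t1.comp tσ).eventually hG, tσ.eventually t2] with p a1 a2 a3 a4 a5
    exact ⟨a1, a2, a3, a4, a5⟩
  obtain ⟨r, hr, hb⟩ := Metric.eventually_nhds_iff.1 hN
  have nb : ∀ z ∈ ball (0:ℂ) r, ∀ y ∈ ball (0:ℂ) r, Nice a H σ (z, 0, y) := fun z hz y hy => by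
    refine hb ?_
    rw [dist_zero_right, Prod.norm_def, Prod.norm_def]
    simp only [mem_ball_zero_iff] at hz hy
    simp [hz, hy]
  have b0 : (0:ℂ) ∈ ball (0:ℂ) r := mem_ball_self hr
  have wz : ∀ z ∈ ball (0:ℂ) r, (fderiv ℂ σ (z, 0, 0) (1, 0, 0)).2.1 = 0 := fun z hz => by
    refine (c2 (ds (k1 z 0 0) (nb z hz 0 b0).an rfl)).unique
      ((hasDerivAt_const z (0:ℂ)).congr_of_eventuallyEq ?_)
    filter_upwards [isOpen_ball.mem_nhds hz] with ζ hζ using s1 (nb ζ hζ 0 b0)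
  have wy : ∀ z ∈ ball (0:ℂ) r, (fderiv ℂ σ (z, 0, 0) (0, 0, 1)).2.1 = 0 := fun z hz => by
    refine (c2 (ds (k3 z 0 0) (nb z hz 0 b0).an rfl)).unique
      ((hasDerivAt_const 0 (0:ℂ)).congr_of_eventuallyEq ?_)
    filter_upwards [isOpen_ball.mem_nhds b0] with y hy using s1 (nb z hz y hy)
  have la : ∀ z ∈ ball (0:ℂ) r, ∀ y ∈ ball (0:ℂ) r, AnalyticAt ℂ (fun ζ => σ (ζ, 0, y)) z :=
    fun z hz y hy => (nb z hz y hy).an.fun_comp_of_eq (analyticAt_id.prod analyticAt_const) rfl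
  have yc : ∀ z ∈ ball (0:ℂ) r, ∀ y ∈ ball (0:ℂ) r, (σ (z, 0, y)).2.2 = (σ (0, 0, y)).2.2 :=
    fun z hz y hy => const_of (φ := fun ζ => (σ (ζ, 0, y)).2.2)
      (fun ζ hζ => analyticAt_snd.fun_comp (analyticAt_snd.fun_comp (la ζ hζ y hy)))
      (fun ζ hζ => by
        rw [(c3 (ds (k1 ζ 0 y) (nb ζ hζ y hy).an rfl)).deriv]; exact (s2 (nb ζ hζ y hy)).2) hz
  have ac : ∀ z ∈ ball (0:ℂ) r, AA σ (z, 0) = AA σ (0, 0) := fun z hz => by
    refine (c3 (ds (k3 z 0 0) (nb z hz 0 b0).an rfl)).unique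
      ((c3 (ds (k3 0 0 0) (nb 0 b0 0 b0).an rfl)).congr_of_eventuallyEq ?_)
    filter_upwards [isOpen_ball.mem_nhds b0] with y hy using yc z hz y hy
  set Z : ℂ → ℂ := fun z => (σ (z, 0, 0)).1 with hZ
  have h0' : σ (0, 0, 0) = (0, 0, 0) := h0
  have hL : ∀ z ∈ ball (0:ℂ) r, σ (z, 0, 0) = (Z z, 0, 0) := fun z hz => by
    refine Prod.ext rfl (Prod.ext (s1 (nb z hz 0 b0)) ?_)
    rw [yc z hz 0 b0, h0']
  have Zan : ∀ z ∈ ball (0:ℂ) r, AnalyticAt ℂ Z z := fun z hz =>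
    analyticAt_fst.fun_comp (la z hz 0 b0)
  have Z0 : Z 0 = 0 := by simp only [hZ, h0']
  have dZ : ∀ z ∈ ball (0:ℂ) r, deriv Z z = (fderiv ℂ σ (z, 0, 0) (1, 0, 0)).1 := fun z hz =>
    (c1 (ds (k1 z 0 0) (nb z hz 0 b0).an rfl)).deriv
  have yz : (fderiv ℂ σ (0, 0, 0) (1, 0, 0)).2.2 = 0 := by
    refine (c3 (ds (k1 0 0 0) (nb 0 b0 0 b0).an rfl)).unique
      ((hasDerivAt_const 0 (0:ℂ)).congr_of_eventuallyEq ?_)
    filter_upwards [isOpen_ball.mem_nhds b0] with ζ hζ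
    rw [hL ζ hζ]
  have hs' : Function.Surjective (fderiv ℂ σ (0, 0, 0)) := hs
  have sj : ∀ x y z : ℂ, ∃ v1 v2 v3 : ℂ,
      v1 * (fderiv ℂ σ (0, 0, 0) (1, 0, 0)).1 + v2 * (fderiv ℂ σ (0, 0, 0) (0, 1, 0)).1 +
        v3 * (fderiv ℂ σ (0, 0, 0) (0, 0, 1)).1 = x ∧
      v2 * (fderiv ℂ σ (0, 0, 0) (0, 1, 0)).2.1 = y ∧
      v2 * (fderiv ℂ σ (0, 0, 0) (0, 1, 0)).2.2 + v3 * AA σ (0, 0) = z := fun x y z => by
    obtain ⟨⟨v1, v2, v3⟩, hv⟩ := hs' (x, y, z)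
    rw [lin3] at hv
    have e1 := congrArg (fun p => p.1) hv
    have e2 := congrArg (fun p => p.2.1) hv
    have e3 := congrArg (fun p => p.2.2) hv
    simp only [Prod.fst_add, Prod.snd_add, Prod.smul_fst, Prod.smul_snd, smul_eq_mul,
      wz 0 b0, wy 0 b0, yz, mul_zero, zero_add, add_zero] at e1 e2 e3
    exact ⟨v1, v2, v3, e1, e2, e3⟩
  have m0 : (fderiv ℂ σ (0, 0, 0) (0, 1, 0)).2.1 ≠ 0 := fun h => by
    obtain ⟨_, _, _, _, e, _⟩ := sj 0 1 0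
    simp [h] at e
  have n0 : AA σ (0, 0) ≠ 0 := fun h => by
    obtain ⟨_, _, _, _, e, e'⟩ := sj 0 0 1
    simp [(mul_eq_zero.1 e).resolve_right m0, h] at e'
  have z0 : deriv Z 0 ≠ 0 := fun h => by
    obtain ⟨_, _, _, e1, e, e'⟩ := sj 1 0 0
    rw [dZ 0 b0] at h
    rw [(mul_eq_zero.1 e).resolve_right m0, zero_mul, zero_add] at e'
    simp [(mul_eq_zero.1 e).resolve_right m0, (mul_eq_zero.1 e').resolve_right n0, h] at e1
  have m1 : (fderiv ℂ σ (0, 0, 0) (0, 1, 0)).2.1 = -1 := s3 (nb 0 b0 0 b0) h0 ha m0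
  have z1 : deriv Z 0 = 1 := by
    have t1 : Tendsto (deriv Z) (𝓝[≠] 0) (𝓝 (deriv Z 0)) :=
      (Zan 0 b0).deriv.continuousAt.tendsto.mono_left nhdsWithin_le_nhds
    have t2 : Tendsto (fun z : ℂ => (fderiv ℂ σ (z, 0, 0) (0, 1, 0)).2.1) (𝓝[≠] 0) (𝓝 (-1)) := by
      rw [← m1]
      exact ((continuous_snd.fst.tendsto _).comp ((fd_an (nb 0 b0 0 b0).an _).continuousAt.tendsto.comp
        (k1 0 0 0).continuousAt.tendsto)).mono_left nhdsWithin_le_nhds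
    have t3 := slope0 (Zan 0 b0).differentiableAt.hasDerivAt Z0
    have t4 := t1.add (t2.mul (t3.pow 2))
    have t5 := tendsto_nhds_unique (t4.congr' (f₂ := fun _ => 0) (by
      filter_upwards [self_mem_nhdsWithin, mem_nhdsWithin_of_mem_nhds (isOpen_ball.mem_nhds b0)]
        with z hz1 hz2
      have e := (s2 (nb z hz2 0 b0)).1
      rw [← dZ z hz2] at e
      have : z ≠ 0 := hz1
      field_simp
      linear_combination e)) tendsto_const_nhds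
    apply mul_left_cancel₀ z0
    linear_combination -t5
  have tZ : Tendsto Z (𝓝 0) (𝓝 0) := by
    have := (Zan 0 b0).continuousAt.tendsto; rwa [Z0] at this
  have it : ∀ j : ℕ, ∀ᶠ z in 𝓝 (0:ℂ), σ^[j] (z, 0, 0) = (Z^[j] z, 0, 0) := by
    intro j
    induction j with
    | zero => simp
    | succ j ih =>
      filter_upwards [tZ.eventually ih, isOpen_ball.mem_nhds b0] with z a1 a2
      rw [Function.iterate_succ_apply, Function.iterate_succ_apply, hL z a2, a1]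
  have Zid : Z =ᶠ[𝓝 0] id := fin_ord (Zan 0 b0) Z0 z1 hk (by
    filter_upwards [it k, (k1 0 0 0).continuousAt.tendsto.eventually hit] with z a1 a2
    rw [a1] at a2
    exact congrArg Prod.fst a2)
  have fin := euler (b := fun ζ => fderiv ℂ (AA σ) (ζ, 0) (0, 1)) (c := -2 * AA σ (0, 0)) (by
    have : AnalyticAt ℂ (fun x => fderiv ℂ (AA σ) x (0, 1)) (0, 0) :=
      ((ContinuousLinearMap.apply ℂ ℂ ((0:ℂ), (1:ℂ))).analyticAt _).fun_comp
        (AA_an (nb 0 b0 0 b0).an).fderiv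
    exact this.fun_comp_of_eq (analyticAt_id.prod analyticAt_const) rfl) (by
    filter_upwards [self_mem_nhdsWithin, mem_nhdsWithin_of_mem_nhds (isOpen_ball.mem_nhds b0),
      mem_nhdsWithin_of_mem_nhds Zid.eventually_nhds] with z hz1 hz2 hz3
    have e1 : Z z = z := hz3.self_of_nhds
    have e2 : deriv Z z = 1 := by rw [Filter.EventuallyEq.deriv_eq hz3]; simp
    refine s5 (nb z hz2 0 b0) (by rw [hL z hz2, e1]) ?_ (wz z hz2) (wy z hz2) ?_
    · have e := (s2 (nb z hz2 0 b0)).1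
      rw [← dZ z hz2, e2, hL z hz2, e1] at e
      apply mul_left_cancel₀ (pow_ne_zero 2 hz1)
      linear_combination e
    · filter_upwards [isOpen_ball.mem_nhds hz2] with ζ hζ using ac ζ hζ)
  exact n0 (by linear_combination (-1 / 2) * fin)

end Pool.Agent.H.MP_3fbb5c_an
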