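import Pool.Agent.H.MP_3fbb5c_an.D

set_option autoImplicit false
open Filter Topology Complex Metric Set

namespace Pool.Agent.H.MP_3fbb5c_an

noncomputable def PP (t : ℂ) (p : ℂ × ℂ × ℂ) : ℂ × ℂ × ℂ :=
  (p.1 / (1 - t * p.1), exp t * p.2.1, p.2.2 * exp (p.2.1 * J t p.1))

lemma PP_zero (p : ℂ × ℂ × ℂ) : PP 0 p = p := by simp [PP, J_zero]

lemma PP_at (t : ℂ) : PP t 0 = 0 := by simp [PP]

lemma PP_add {s t : ℂ} {p : ℂ × ℂ × ℂ} (hz : ‖p.1‖ < 1 / 20) (hs : ‖s‖ < 5) (ht : ‖t‖ < 5) :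
    PP t (PP s p) = PP (s + t) p := by
  have hz' : ‖p.1‖ < 1 / 10 := by linarith
  have h1 := den_ne hz' (by linarith : ‖s‖ < 10)
  have h2 := den_ne hz' (by linarith [norm_add_le s t] : ‖s + t‖ < 10)
  simp only [PP, J_add hz hs ht]
  refine Prod.ext ?_ (Prod.ext ?_ ?_)
  · have e : 1 - t * (p.1 / (1 - s * p.1)) = (1 - (s + t) * p.1) / (1 - s * p.1) := by
      rw [eq_div_iff h1, sub_mul, mul_assoc, div_mul_cancel₀ _ h1]; ring
    simp only [e]
    generalize 1 - (s + t) * p.1 = A at h2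
    generalize 1 - s * p.1 = B at h1
    field_simp
  · simp only [exp_add]; ring
  · simp only [mul_add, exp_add]
    rw [mul_assoc p.2.2]
    congr 3
    ring

lemma PP_an {τ : ℂ → ℂ} (h : AnalyticAt ℂ τ 0) :
    AnalyticAt ℂ (fun p : ℂ × ℂ × ℂ => PP (τ p.2.1) p) 0 := by
  have a2 : AnalyticAt ℂ (fun p : ℂ × ℂ × ℂ => p.2.1) 0 := analyticAt_fst.fun_comp analyticAt_snd
  have a3 : AnalyticAt ℂ (fun p : ℂ × ℂ × ℂ => p.2.2) 0 := analyticAt_snd.fun_comp analyticAt_snd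
  have b : AnalyticAt ℂ (fun p : ℂ × ℂ × ℂ => τ p.2.1) 0 := h.fun_comp_of_eq a2 rfl
  have j : AnalyticAt ℂ (fun p : ℂ × ℂ × ℂ => J (τ p.2.1) p.1) 0 :=
    ((J_an (τ 0)).fun_comp_of_eq (b.prod analyticAt_fst) rfl :)
  exact (analyticAt_fst.div (analyticAt_const.sub (b.mul analyticAt_fst)) (by simp)).prod
    ((b.cexp.mul a2).prod (a3.mul (a2.mul j).cexp))

noncomputable def T (w : ℂ) : ℂ := -log (1 - w)

lemma T0 : T 0 = 0 := by simp [T]

lemma T_an : AnalyticAt ℂ T 0 :=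
  ((analyticAt_const.sub analyticAt_id).clog (by simp)).neg

lemma T_der : HasDerivAt T 1 0 :=
  (((hasDerivAt_id (0:ℂ)).const_sub 1).clog (by simp)).neg.congr_deriv (by simp)

lemma expT {w : ℂ} (h : 1 - w ≠ 0) : exp (T w) = (1 - w)⁻¹ := by
  rw [T, exp_neg, exp_log h]

lemma T_neg {w : ℂ} (h : 1 - w ∈ slitPlane) : T (-(exp (T w) * w)) = -T w := by
  have h0 := slitPlane_ne_zero h
  have e : 1 - -(exp (T w) * w) = (1 - w)⁻¹ := by rw [expT h0]; field_simp; ring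
  rw [T, e, log_inv _ (slitPlane_arg_ne_pi h), T]

noncomputable def aa (x : ℂ × ℂ) : ℂ := x.1 / (1 - T x.2 * x.1)

noncomputable def HH (x : ℂ × ℂ) : ℂ := J (T x.2) x.1

lemma good : ∀ᶠ z in 𝓝 0, Good aa HH z := by
  have b : ∀ z : ℂ, AnalyticAt ℂ (fun x : ℂ × ℂ => T x.2) (z, 0) := fun z =>
    T_an.fun_comp_of_eq analyticAt_snd rfl
  have hn : AnalyticAt ℂ HH (0, 0) :=
    ((J_an 0).fun_comp_of_eq ((b 0).prod analyticAt_fst) (by simp [T0]) :)
  have t : Tendsto (fun z : ℂ => (z, (0:ℂ))) (𝓝 0) (𝓝 (0, 0)) :=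
    Continuous.tendsto' (by fun_prop) _ _ rfl
  filter_upwards [t.eventually hn.eventually_analyticAt,
    ball_mem_nhds (0:ℂ) (by norm_num : (0:ℝ) < 1 / 10)] with z h1 h2
  have an : AnalyticAt ℂ aa (z, 0) :=
    analyticAt_fst.div (analyticAt_const.sub ((b z).mul analyticAt_fst)) (by simp [T0])
  refine ⟨an, h1, by simp [aa, T0], by simp [HH, T0, J_zero], fun α β => ?_, fun α β => ?_⟩
  · have e1 : fderiv ℂ aa (z, 0) (1, 0) = 1 := by
      refine (dfst an.differentiableAt).unique ?_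
      simpa [aa, T0] using hasDerivAt_id' z
    have e2 : fderiv ℂ aa (z, 0) (0, 1) = z ^ 2 := by
      refine (dsnd an.differentiableAt).unique ?_
      refine ((hasDerivAt_const (0:ℂ) z).div ((T_der.mul_const z).const_sub 1)
        (by simp [T0])).congr_deriv ?_
      simp [T0]; ring
    rw [lin2, e1, e2, mul_one]
  · have e1 : fderiv ℂ HH (z, 0) (1, 0) = 0 := by
      refine (dfst h1.differentiableAt).unique ?_
      simpa [HH, T0, J_zero] using hasDerivAt_const z (0:ℂ)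
    have e2 : fderiv ℂ HH (z, 0) (0, 1) = z := by
      refine (dsnd h1.differentiableAt).unique ?_
      have := HasDerivAt.comp_of_eq (0:ℂ)
        (J_der (t := 0) (mem_ball_zero_iff.1 h2) (by simp)) T_der T0.symm
      exact this.congr_deriv (by simp)
    rw [lin2, e1, e2, mul_zero, zero_add]

lemma FP {p : ℂ × ℂ × ℂ} (h : 1 - p.2.1 ≠ 0) : FF aa HH p = PP (T p.2.1) p := by
  simp only [FF, PP, aa, HH, expT h]
  rw [div_eq_inv_mul p.2.1]

lemma small : ∀ᶠ p : ℂ × ℂ × ℂ in 𝓝 0, ‖p.1‖ < 1 / 20 ∧ 1 - p.2.1 ∈ slitPlane ∧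
    1 - -p.2.1 ∈ slitPlane ∧ ‖T p.2.1‖ < 1 ∧ ‖T (-p.2.1)‖ < 1 := by
  have t1 : Tendsto (fun p : ℂ × ℂ × ℂ => p.2.1) (𝓝 0) (𝓝 0) := continuous_snd.fst.tendsto _
  have t2 : Tendsto (fun p : ℂ × ℂ × ℂ => -p.2.1) (𝓝 0) (𝓝 0) := by simpa using t1.neg
  have e1 : ∀ᶠ w : ℂ in 𝓝 0, 1 - w ∈ slitPlane :=
    (Continuous.tendsto' (f := fun w : ℂ => 1 - w) (by fun_prop) 0 1 (by simp)).eventually
      (isOpen_slitPlane.mem_nhds one_mem_slitPlane)
  have e2 : ∀ᶠ w : ℂ in 𝓝 0, ‖T w‖ < 1 :=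
    T_an.continuousAt.norm.eventually_lt continuousAt_const (by simp [T0])
  have e3 : ∀ᶠ p : ℂ × ℂ × ℂ in 𝓝 0, ‖p.1‖ < 1 / 20 :=
    ContinuousAt.eventually_lt (f := fun p : ℂ × ℂ × ℂ => ‖p.1‖) (by fun_prop)
      continuousAt_const (by simp)
  filter_upwards [e3, t1.eventually e1, t2.eventually e1, t1.eventually e2, t2.eventually e2]
    with p a b c d e using ⟨a, b, c, d, e⟩

lemma F_an : AnalyticAt ℂ (FF aa HH) 0 :=
  (PP_an T_an).congr (by
    filter_upwards [small] with p hp using (FP (slitPlane_ne_zero hp.2.1)).symm)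

lemma F0 : FF aa HH 0 = 0 := by simp [FF, aa]

noncomputable def GG (p : ℂ × ℂ × ℂ) : ℂ × ℂ × ℂ := PP (T (-p.2.1)) p

lemma G_an : AnalyticAt ℂ GG 0 :=
  PP_an (τ := fun w => T (-w)) (T_an.fun_comp_of_eq analyticAt_id.neg (by simp))

lemma GF : GG ∘ FF aa HH =ᶠ[𝓝 0] id := by
  filter_upwards [small] with p hp
  obtain ⟨a, b, _, d, _⟩ := hp
  have e : T (-(PP (T p.2.1) p).2.1) = -T p.2.1 := T_neg b
  simp only [Function.comp, id, FP (slitPlane_ne_zero b), GG, e]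
  rw [PP_add a (by linarith) (by rw [norm_neg]; linarith), add_neg_cancel, PP_zero]

lemma FG : FF aa HH ∘ GG =ᶠ[𝓝 0] id := by
  have t : Tendsto GG (𝓝 0) (𝓝 0) := by
    have := G_an.continuousAt.tendsto
    rwa [show GG 0 = 0 from PP_at _] at this
  filter_upwards [small, t.eventually small] with p hp hq
  obtain ⟨a, _, c, _, d⟩ := hp
  have e : T (GG p).2.1 = -T (-p.2.1) := by
    rw [← T_neg c]; simp [GG, PP]
  simp only [Function.comp, id, FP (slitPlane_ne_zero hq.2.1), e]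
  rw [GG, PP_add a (by linarith) (by rw [norm_neg]; linarith), add_neg_cancel, PP_zero]

lemma npi : ‖(Real.pi : ℂ) * I‖ < 4 := by
  simp only [norm_mul, norm_real, norm_I, mul_one, Real.norm_eq_abs, abs_of_pos Real.pi_pos]
  exact Real.pi_lt_four

lemma P_inv {t : ℂ} (h : ‖t‖ < 4) : PP (-t) ∘ PP t =ᶠ[𝓝 0] id := by
  filter_upwards [small] with p hp
  simp only [Function.comp, id]
  rw [PP_add hp.1 (by linarith) (by rw [norm_neg]; linarith), add_neg_cancel, PP_zero]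

lemma FPF : FF aa HH ∘ PP (Real.pi * I) ∘ FF aa HH =ᶠ[𝓝 0] PP (Real.pi * I) := by
  have t1 : Tendsto (FF aa HH) (𝓝 0) (𝓝 0) := by
    have := F_an.continuousAt.tendsto
    rwa [F0] at this
  have t2 : Tendsto (PP (Real.pi * I)) (𝓝 0) (𝓝 0) := by
    have := (PP_an (τ := fun _ => Real.pi * I) analyticAt_const).continuousAt.tendsto
    rwa [PP_at] at this
  filter_upwards [small, (t2.comp t1).eventually small] with p hp hq
  obtain ⟨a, b, _, d, _⟩ := hp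
  simp only [Function.comp] at hq ⊢
  rw [FP (slitPlane_ne_zero hq.2.1), FP (slitPlane_ne_zero b)]
  have e : T (PP (Real.pi * I) (PP (T p.2.1) p)).2.1 = -T p.2.1 := by
    rw [← T_neg b]; simp [PP, exp_pi_mul_I]
  have := npi
  rw [e, PP_add a (by linarith) (by linarith),
    PP_add a (by linarith [norm_add_le (T p.2.1) (Real.pi * I)]) (by rw [norm_neg]; linarith)]
  congr 1
  ring

end Pool.Agent.H.MP_3fbb5c_an
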